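import Pool.Agent.QPI.Stmts

set_option autoImplicit false

namespace Pool.Agent.QPI.H80

open MvPolynomial

variable {N₁ N₂ : ℕ}

/-- every monomial involves at most `c` variables -/
def PB (p : MvPolynomial (Fin N₁ ⊕ Fin N₂) ℚ) (c : ℕ) : Prop :=
  ∀ α ∈ p.support, α.support.card ≤ c

theorem PB.zero (c : ℕ) : PB (0 : MvPolynomial (Fin N₁ ⊕ Fin N₂) ℚ) c := by
  intro α hα
  simp at hα

theorem PB.mono {p : MvPolynomial (Fin N₁ ⊕ Fin N₂) ℚ} {c d : ℕ} (h : c ≤ d) (hp : PB p c) :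
    PB p d := fun α hα => le_trans (hp α hα) h

theorem PB.add {p q : MvPolynomial (Fin N₁ ⊕ Fin N₂) ℚ} {c : ℕ} (hp : PB p c) (hq : PB q c) :
    PB (p + q) c := by
  classical
  intro α hα
  rcases Finset.mem_union.1 (MvPolynomial.support_add hα) with h | h
  · exact hp α h
  · exact hq α h

theorem PB.neg {p : MvPolynomial (Fin N₁ ⊕ Fin N₂) ℚ} {c : ℕ} (hp : PB p c) : PB (-p) c := by
  intro α hα
  rw [MvPolynomial.support_neg] at hα
  exact hp α hα

theorem PB.mul {p q : MvPolynomial (Fin N₁ ⊕ Fin N₂) ℚ} {c d : ℕ} (hp : PB p c) (hq : PB q d) :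
    PB (p * q) (c + d) := by
  classical
  intro α hα
  obtain ⟨β, hβ, γ, hγ, rfl⟩ := Finset.mem_add.1 (MvPolynomial.support_mul p q hα)
  calc (β + γ).support.card ≤ (β.support ∪ γ.support).card :=
        Finset.card_le_card Finsupp.support_add
    _ ≤ β.support.card + γ.support.card := Finset.card_union_le _ _
    _ ≤ c + d := Nat.add_le_add (hp β hβ) (hq γ hγ)

theorem PB.sum {ι : Type} (s : Finset ι) (f : ι → MvPolynomial (Fin N₁ ⊕ Fin N₂) ℚ) {c : ℕ}
    (h : ∀ i ∈ s, PB (f i) c) : PB (∑ i ∈ s, f i) c := by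
  classical
  induction s using Finset.induction_on with
  | empty => rw [Finset.sum_empty]; exact PB.zero c
  | insert i s hi ih =>
    rw [Finset.sum_insert hi]
    exact (h i (Finset.mem_insert_self i s)).add (ih fun j hj => h j (Finset.mem_insert_of_mem hj))

theorem PB.C (r : ℚ) : PB (MvPolynomial.C r : MvPolynomial (Fin N₁ ⊕ Fin N₂) ℚ) 0 := by
  classical
  intro α hα
  rw [MvPolynomial.mem_support_iff, MvPolynomial.coeff_C] at hα
  have h : (0 : Fin N₁ ⊕ Fin N₂ →₀ ℕ) = α := by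
    by_contra h
    rw [if_neg h] at hα
    exact hα rfl
  rw [← h]
  simp

theorem PB.natCast (n : ℕ) : PB (n : MvPolynomial (Fin N₁ ⊕ Fin N₂) ℚ) 0 := by
  have h : (n : MvPolynomial (Fin N₁ ⊕ Fin N₂) ℚ) = MvPolynomial.C (n : ℚ) := by
    rw [map_natCast]
  rw [h]
  exact PB.C _

theorem PB.monomial (β : Fin N₁ ⊕ Fin N₂ →₀ ℕ) (r : ℚ) {c : ℕ} (h : β.support.card ≤ c) :
    PB (MvPolynomial.monomial β r) c := by
  classical
  intro α hα
  rw [MvPolynomial.mem_support_iff, MvPolynomial.coeff_monomial] at hα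
  have h' : β = α := by
    by_contra h'
    rw [if_neg h'] at hα
    exact hα rfl
  rw [← h']
  exact h

/-- the power series of a monomial -/
theorem hat_monomial (β : Fin N₁ ⊕ Fin N₂ →₀ ℕ) (r : ℚ) :
    hat (S := MvPolynomial (Fin N₁ ⊕ Fin N₂) ℚ) X (MvPolynomial.monomial β r) =
      PowerSeries.X ^ (∑ i ∈ β.support, wt i * β i) *
        PowerSeries.C (MvPolynomial.monomial β r) := by
  unfold hat
  rw [MvPolynomial.aeval_monomial, PowerSeries.algebraMap_apply]
  unfold Finsupp.prod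
  have h1 : ∏ i ∈ β.support, (PowerSeries.X ^ wt i *
      PowerSeries.C (X i : MvPolynomial (Fin N₁ ⊕ Fin N₂) ℚ)) ^ β i =
      PowerSeries.X ^ (∑ i ∈ β.support, wt i * β i) *
        PowerSeries.C (∏ i ∈ β.support, (X i : MvPolynomial (Fin N₁ ⊕ Fin N₂) ℚ) ^ β i) := by
    rw [map_prod, ← Finset.prod_pow_eq_pow_sum, ← Finset.prod_mul_distrib]
    refine Finset.prod_congr rfl fun i _ => ?_
    rw [mul_pow, ← pow_mul, map_pow]
  rw [h1, MvPolynomial.monomial_eq, map_mul, MvPolynomial.algebraMap_eq]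
  unfold Finsupp.prod
  ring

theorem coeff_XC (w a : ℕ) (p : MvPolynomial (Fin N₁ ⊕ Fin N₂) ℚ) :
    PowerSeries.coeff a (PowerSeries.X ^ w * PowerSeries.C p) = if a = w then p else 0 := by
  rw [PowerSeries.coeff_X_pow_mul', PowerSeries.coeff_C]
  by_cases h : a = w
  · subst h
    simp
  · rw [if_neg h]
    by_cases h' : w ≤ a
    · rw [if_pos h', if_neg (by omega)]
    · rw [if_neg h']

theorem coeff_hat (R : MvPolynomial (Fin N₁ ⊕ Fin N₂) ℚ) (a : ℕ) :
    PowerSeries.coeff a (hat (S := MvPolynomial (Fin N₁ ⊕ Fin N₂) ℚ) X R) =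
      ∑ β ∈ R.support, if a = ∑ i ∈ β.support, wt i * β i then
        MvPolynomial.monomial β (R.coeff β) else 0 := by
  conv_lhs => rw [R.as_sum]
  rw [map_sum, map_sum]
  refine Finset.sum_congr rfl fun β _ => ?_
  rw [hat_monomial, coeff_XC]

theorem hat_PB (R : MvPolynomial (Fin N₁ ⊕ Fin N₂) ℚ) (c : ℕ) (h : PB R c) :
    VB (hat X R) c := by
  intro a
  rw [coeff_hat]
  refine PB.sum _ _ fun β hβ => ?_
  split_ifs
  · exact PB.monomial β _ (h β hβ)
  · exact PB.zero c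

/-- all coefficients are polynomials in the variables of `V` -/
def VS (V : Finset (Fin N₁ ⊕ Fin N₂)) (g : PowerSeries (MvPolynomial (Fin N₁ ⊕ Fin N₂) ℚ)) : Prop :=
  ∀ a, PowerSeries.coeff a g ∈ MvPolynomial.supported ℚ (V : Set (Fin N₁ ⊕ Fin N₂))

theorem hat_VS (f : MvPolynomial (Fin N₁ ⊕ Fin N₂) ℚ) : VS f.vars (hat X f) := by
  intro a
  rw [coeff_hat]
  refine Subalgebra.sum_mem _ fun β hβ => ?_
  split_ifs
  · rw [MvPolynomial.mem_supported]
    intro i hi
    have hi' : i ∈ (MvPolynomial.monomial β (f.coeff β)).vars := hi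
    rw [MvPolynomial.vars_monomial (MvPolynomial.mem_support_iff.1 hβ)] at hi'
    exact (MvPolynomial.mem_vars i).2 ⟨β, hβ, hi'⟩
  · exact Subalgebra.zero_mem _

theorem VS.th {V : Finset (Fin N₁ ⊕ Fin N₂)}
    {g : PowerSeries (MvPolynomial (Fin N₁ ⊕ Fin N₂) ℚ)} (h : VS V g) : VS V (th g) := by
  intro a
  unfold QPI.th
  rw [PowerSeries.coeff_mk]
  exact Subalgebra.mul_mem _ (Subalgebra.natCast_mem _ a) (h a)

theorem VS.mul {V : Finset (Fin N₁ ⊕ Fin N₂)}
    {g h : PowerSeries (MvPolynomial (Fin N₁ ⊕ Fin N₂) ℚ)} (hg : VS V g) (hh : VS V h) :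
    VS V (g * h) := by
  intro a
  rw [PowerSeries.coeff_mul]
  exact Subalgebra.sum_mem _ fun p _ => Subalgebra.mul_mem _ (hg p.1) (hh p.2)

theorem VS.inv {V : Finset (Fin N₁ ⊕ Fin N₂)}
    {g : PowerSeries (MvPolynomial (Fin N₁ ⊕ Fin N₂) ℚ)} (h : VS V g) :
    VS V (PowerSeries.invOfUnit g 1) := by
  intro a
  induction a using Nat.strong_induction_on with
  | _ a ih =>
    rw [PowerSeries.coeff_invOfUnit]
    split_ifs with ha
    · rw [inv_one, Units.val_one]
      exact Subalgebra.one_mem _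
    · refine Subalgebra.mul_mem _ ?_ (Subalgebra.sum_mem _ fun p _ => ?_)
      · rw [inv_one, Units.val_one]
        exact Subalgebra.neg_mem _ (Subalgebra.one_mem _)
      · split_ifs with hp
        · exact Subalgebra.mul_mem _ (h p.1) (ih p.2 hp)
        · exact Subalgebra.zero_mem _

theorem VS.VB {V : Finset (Fin N₁ ⊕ Fin N₂)}
    {g : PowerSeries (MvPolynomial (Fin N₁ ⊕ Fin N₂) ℚ)} (h : VS V g) {c : ℕ} (hc : V.card ≤ c) :
    VB g c := by
  intro a α hα
  have h1 := (MvPolynomial.mem_supported).1 (h a)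
  refine le_trans (Finset.card_le_card fun i hi => ?_) hc
  have h2 : i ∈ (PowerSeries.coeff a g).vars := (MvPolynomial.mem_vars i).2 ⟨α, hα, hi⟩
  exact h1 h2

theorem C_VBC : VbcStmt := by
  intro N₁ N₂ g h c d
  refine ⟨fun hg hh a => ?_, fun hg hh a => ?_, fun hg a => ?_, fun hg a => ?_, fun hcd hg a => ?_,
    fun n a => ?_, fun R hR => hat_PB R c hR, fun f _ hf => ?_⟩
  · rw [map_add]
    exact PB.add (hg a) (hh a)
  · rw [PowerSeries.coeff_mul]
    exact PB.sum _ _ fun p _ => PB.mul (hg p.1) (hh p.2)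
  · unfold QPI.th
    rw [PowerSeries.coeff_mk]
    have h1 := PB.mul (PB.natCast (N₁ := N₁) (N₂ := N₂) a) (hg a)
    rw [zero_add] at h1
    exact h1
  · rw [map_neg]
    exact PB.neg (hg a)
  · exact PB.mono hcd (hg a)
  · have h1 : (n : PowerSeries (MvPolynomial (Fin N₁ ⊕ Fin N₂) ℚ)) =
        PowerSeries.C (n : MvPolynomial (Fin N₁ ⊕ Fin N₂) ℚ) := by
      rw [map_natCast]
    rw [h1, PowerSeries.coeff_C]
    split_ifs
    · exact PB.natCast n
    · exact PB.zero 0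
  · exact ((hat_VS f).th.mul (hat_VS f).inv).VB hf

end Pool.Agent.QPI.H80
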